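import Pool.Agent.helper48.AN.SpecD

/-!
# Project an (MP_263b92_ag): module DI

The ring of the formally deformed curve is a ring, and the residue theorem holds in it.
-/

namespace AN

open scoped Classical
open MvPowerSeries (constantCoeff coeff)

noncomputable section

theorem DI_CI_mul {k : Type} [Field k] {N : ℕ} {U : Submodule k (LS k)}
    (hU : ∀ f ∈ U, ∀ h ∈ U, f * h ∈ U) {x y : KK k N} (hx : CI U x) (hy : CI U y) : CI U (x * y) := by
  intro α
  rw [MvPowerSeries.coeff_mul]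
  exact Submodule.sum_mem _ fun q _ => hU _ (hx q.1) _ (hy q.2)

theorem DI_resK_zero {k : Type} [Field k] {N : ℕ} {U : Submodule k (LS k)}
    (hU : ∀ f ∈ U, ∀ h ∈ U, res (f * dd h) = 0) {x y : KK k N} (hx : CI U x) (hy : CI U y) :
    resK (x * ddK y) = 0 := by
  funext α
  show res (coeff α (x * ddK y)) = 0
  rw [MvPowerSeries.coeff_mul, res_sum]
  refine Finset.sum_eq_zero fun q _ => ?_
  exact hU _ (hx q.1) _ (hy q.2)

theorem DI (hDB : DB_stmt) (hDC : DC_stmt) (hDE : DE_stmt) (hDF : DF_stmt) (hKB : KB_stmt) :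
    DI_stmt := by
  intro k _ N g γ a ha h A hA
  obtain ⟨-, -, -, hdef⟩ := hA
  obtain ⟨-, -, -, hmul, hres, -, -, -⟩ := hKB k g γ a ha
  obtain ⟨-, -, hPm, -, -⟩ := hDB k N h
  obtain ⟨-, hPd, -⟩ := hDC k N h
  obtain ⟨-, -, hSm, -, hSd, hSr, -⟩ := hDF k N
  have key : ∀ r, ¬ Gp γ r → ∃ x : KK k N, CI (AA γ a) x ∧ sw (A r) = Phi h x := fun r hr =>
    (hdef (A r)).mp (Submodule.subset_span ⟨r, hr, rfl⟩)
  refine ⟨fun r r' hr hr' => ?_, fun r r' hr hr' => ?_⟩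
  · obtain ⟨x, hx, hx'⟩ := key r hr
    obtain ⟨y, hy, hy'⟩ := key r' hr'
    refine (hdef _).mpr ⟨x * y, DI_CI_mul hmul hx hy, ?_⟩
    rw [hSm, hx', hy', hPm]
  · obtain ⟨x, hx, hx'⟩ := key r hr
    obtain ⟨y, hy, hy'⟩ := key r' hr'
    rw [← hSr, hSm, ← hSd, hx', hy', hPd, ← mul_assoc, ← hPm, hDE]
    exact DI_resK_zero hres hx hy

end

end AN
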