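import Pool.Agent.helper48.AN.SpecF

/-!
# Project an (MP_263b92_ag): module FC

The residue theorem for `f dh`, `f`, `h` regular outside `P₀`.
-/

namespace AN

open scoped Classical
open Pool.Agent.helper53.AU

noncomputable section

/-- the case where the pole order of `y` is prime to the characteristic -/
theorem FC_prime (hFC0 : FC0_stmt) (hFCR : FCR_stmt) (hFC1 : FC1_stmt) {k F : Type} [Field k]
    [IsAlgClosed k] [Field F] [Algebra k F] (hF : IsFF k F) (P₀ : Place k F) (ι : F →+* LS k)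
    (hι : Lau P₀ ι) (y : F) (n : ℕ) (hn : 0 < n) (hnk : (n : k) ≠ 0) (hy : y ∈ Reg P₀)
    (hord : P₀.ord y = -(n : ℤ)) (f : F) (hf : f ∈ Reg P₀) : res (ι f * dd (ι y)) = 0 := by
  have hy0 : y ≠ 0 := by
    intro h
    rw [h, P₀.ord_zero] at hord
    omega
  have h1 := hι.mem y hy0
  have h2 := hι.ne y hy0
  rw [hord] at h1 h2
  obtain ⟨σ, hσ1, hσ2, hσ3⟩ := hFCR k n hn hnk (ι y) h1 h2
  obtain ⟨S, hS1, hS2, hS3, hS4, hS5⟩ := hFC0 k σ hσ1 hσ2
  set ι' : F →+* LS k := (S.symm : LS k →+* LS k).comp ι with hι'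
  have hSι : ∀ x, S (ι' x) = ι x := fun x => by
    rw [hι']; exact S.apply_symm_apply (ι x)
  have hL : Lau P₀ ι' := by
    refine ⟨fun c => ?_, fun x hx => ?_, fun x hx hc => ?_⟩
    · have : ι' (algebraMap k F c) = S.symm (ι (algebraMap k F c)) := rfl
      rw [this, hι.const]
      exact (RingEquiv.symm_apply_eq S).mpr (hS1 c).symm
    · rw [hS3, hSι]; exact hι.mem x hx
    · have h3 : ι' x ∈ GE k (P₀.ord x + 1) := by
        intro m hm
        rcases lt_or_eq_of_le (Int.lt_add_one_iff.mp hm) with h | h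
        · have h4 : ι' x ∈ GE k (P₀.ord x) := by
            rw [hS3, hSι]; exact hι.mem x hx
          exact h4 m h
        · rw [h]; exact hc
      rw [hS3, hSι] at h3
      exact hι.ne x hx (h3 _ (by omega))
  have hmonopow : ∀ m : ℕ, (mono 1 (1 : k)) ^ m = mono (m : ℤ) 1 := by
    intro m
    induction m with
    | zero => rw [pow_zero, Nat.cast_zero, ← C_eq_mono, map_one]
    | succ m ih =>
      rw [pow_succ, ih, mono_mul_mono, mul_one]
      push_cast
      rfl
  have hy' : ι' y = mono (-(n : ℤ)) 1 := by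
    apply S.injective
    rw [hSι]
    have h3 : S (mono (-(n : ℤ)) 1) * σ ^ n = 1 := by
      rw [← hS2, ← map_pow, ← map_mul, hmonopow, mono_mul_mono, mul_one, neg_add_cancel,
        ← C_eq_mono, map_one, map_one]
    have h4 : σ ^ n ≠ 0 := fun h => by rw [h, mul_zero] at h3; exact zero_ne_one h3
    have h5 : ι y * σ ^ n = 1 := by rw [mul_comm]; exact hσ3
    exact mul_right_cancel₀ h4 (h5.trans h3.symm)
  have hmain := hFC1 k F hF P₀ ι' hL y n hn hnk hy hy' f hf
  have h6 : ι f * dd (ι y) = S (ι' f * dd (ι' y)) * dd σ := by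
    rw [← hSι f, ← hSι y, hS4, map_mul]; ring
  rw [h6, hS5, hy', dd_mono, mul_comm]
  unfold res
  rw [cf_mono_mul, show (-1 : ℤ) - (-(n : ℤ) - 1) = n by ring, hmain, mul_zero]

theorem FC (hFC0 : FC0_stmt) (hFCR : FCR_stmt) (hFC1 : FC1_stmt) : FC_stmt := by
  intro p _ k F _ _ _ _ _ hF P₀ ι hι f hf h hh
  obtain ⟨C, hC⟩ := aQR5 k F hF P₀
  have hp : 0 < p := (Fact.out : p.Prime).pos
  set M : ℕ := (P₀.ord h).natAbs with hM
  set n : ℕ := p * (C + M + 1) + 1 with hn
  have hn1 : C + M + 1 ≤ p * (C + M + 1) := Nat.le_mul_of_pos_left _ hp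
  have hnk : (n : k) ≠ 0 := by
    rw [hn]
    push_cast
    rw [CharP.cast_eq_zero k p]
    simp
  obtain ⟨x, hx, hx0, hxord⟩ := hC n (by omega)
  have hge : P₀.Ge (P₀.ord x + 1) h := Or.inr (by rw [hxord]; omega)
  obtain ⟨-, hadd⟩ := Place.ord_add_eq hx0 hge
  have h1 := FC_prime hFC0 hFCR hFC1 hF P₀ ι hι x n (by omega) hnk hx hxord f hf
  have h2 := FC_prime hFC0 hFCR hFC1 hF P₀ ι hι (x + h) n (by omega) hnk
    ((Reg P₀).add_mem hx hh) (hadd.trans hxord) f hf
  rw [map_add, map_add, mul_add, res_add, h1, zero_add] at h2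
  exact h2

end

end AN
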