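import Pool.Agent.helper48.AN.SpecF

/-!
# Project an (MP_263b92_ag): module FG2

The logarithmic differentials and the fixed vectors of the Hasse-Witt matrix.
-/

namespace AN

open scoped Classical

noncomputable section

theorem FG2_mono {R : Type} [CommRing R] (n : ℤ) (c : R) : mono n c = c • mono n 1 := by
  rw [smul_mono, mul_one]

theorem FG2_PS_pow {R : Type} [CommRing R] {f : LS R} (hf : f ∈ PS R) (n : ℕ) : f ^ n ∈ PS R := by
  induction n with
  | zero => rw [pow_zero]; exact one_mem_PS
  | succ n ih => rw [pow_succ]; exact PS_mul ih hf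

/-- the pairing with a regular differential -/
theorem FG2_pair (hKB : KB_stmt) {K : Type} [Field K] {g : ℕ} {γ : Fin g → ℕ} {a : ℕ → LS K}
    (ha : IsK γ a) {η : LS K} (hη : η ∈ OmA γ a) (hη' : η ∈ PS K) {α o : LS K} (hα : α ∈ AA γ a)
    (ho : o ∈ PS K) (c : Fin g → K) :
    res ((α + ∑ i, mono (-(γ i : ℤ)) (c i) + o) * η) =
      ∑ i, c i * res (mono (-(γ i : ℤ)) 1 * η) := by
  obtain ⟨-, -, -, -, -, -, hB7, hB8⟩ := hKB K g γ a ha
  rw [add_mul, add_mul, res_add, res_add, hB8 _ (hB7 α hα η hη), res_PS (PS_mul ho hη'), zero_add,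
    add_zero, Finset.sum_mul, res_sum]
  refine Finset.sum_congr rfl fun i _ => ?_
  rw [FG2_mono _ (c i), smul_mul_assoc, res_smul]

/-- the pairing of a `p`-th power with a regular differential -/
theorem FG2_frob (hKB : KB_stmt) (hKE : KE_stmt) (p : ℕ) [Fact p.Prime] {K : Type} [Field K]
    [CharP K p] {g : ℕ} {γ : Fin g → ℕ} {a : ℕ → LS K}
    (ha : IsK γ a) {η : LS K} (hη : η ∈ OmA γ a) (hη' : η ∈ PS K) {α o : LS K} (hα : α ∈ AA γ a)
    (ho : o ∈ PS K) (c : Fin g → K) :
    res ((α + ∑ i, mono (-(γ i : ℤ)) (c i) + o) ^ p * η) =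
      ∑ j, c j ^ p * ∑ i, HW p γ a i j * res (mono (-(γ i : ℤ)) 1 * η) := by
  have hchar : CharP (LS K) p := charP_of_injective_ringHom (f := (LS.C : K →+* LS K))
    HahnSeries.C_injective p
  obtain ⟨-, hB2, -, hB4, -, -, hB7, hB8⟩ := hKB K g γ a ha
  have hpow : ∀ n : ℕ, α ^ n ∈ AA γ a := by
    intro n
    induction n with
    | zero => rw [pow_zero, ← map_one LS.C]; exact hB2 1
    | succ n ih => rw [pow_succ]; exact hB4 _ ih _ hα
  rw [add_pow_char, add_pow_char, sum_pow_char p, add_mul, add_mul, res_add, res_add,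
    hB8 _ (hB7 _ (hpow p) η hη), res_PS (PS_mul (FG2_PS_pow ho p) hη'), zero_add, add_zero,
    Finset.sum_mul, res_sum]
  refine Finset.sum_congr rfl fun j _ => ?_
  obtain ⟨αj, hαj, oj, hoj, hj⟩ := hKE p K g γ a ha j
  rw [FG2_mono _ (c j), smul_pow, smul_mul_assoc, res_smul, hj]
  congr 1
  rw [show (∑ i, mono (-(γ i : ℤ)) (HW p γ a i j)) + αj + oj =
    αj + (∑ i, mono (-(γ i : ℤ)) (HW p γ a i j)) + oj by ring]
  exact FG2_pair hKB ha hη hη' hαj hoj _

theorem FG2 (hKA : KA_stmt) (hKB : KB_stmt) (hKD : KD_stmt) (hKE : KE_stmt) : FG2_stmt := by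
  intro p _ K _ _ g γ a ha
  obtain ⟨hD1, hD2, hD3, -, -⟩ := hKD K g γ a ha
  obtain ⟨hA1, -, -⟩ := hKA K g γ a ha
  have hp0 : p ≠ 0 := (Fact.out : p.Prime).ne_zero
  refine ⟨fun z hz hfix => ?_, fun η hη hη' hlog hMN => ?_⟩
  · set η : LS K := ∑ i, z i • om γ a ((γ i : ℤ) - 1) with hηdef
    have hη : η ∈ OmA γ a := Submodule.sum_mem _ fun i _ => Submodule.smul_mem _ _ (hD1 i)
    have hη' : η ∈ PS K := Submodule.sum_mem _ fun i _ => Submodule.smul_mem _ _ (hD2 i)
    have hres : ∀ j, res (mono (-(γ j : ℤ)) 1 * η) = z j := by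
      intro j
      rw [hηdef, Finset.mul_sum, res_sum]
      have : ∀ i ∈ Finset.univ, res (mono (-(γ j : ℤ)) 1 * (z i • om γ a ((γ i : ℤ) - 1))) =
          if i = j then z i else 0 := by
        intro i _
        rw [mul_smul_comm, res_smul, hD3]
        split_ifs <;> simp
      rw [Finset.sum_congr rfl this, Finset.sum_ite_eq' Finset.univ j z]
      simp
    refine ⟨η, hη, hη', ?_, fun y => ?_⟩
    · intro h0
      apply hz
      funext j
      rw [← hres j, h0, mul_zero]
      rfl
    · obtain ⟨α, hα, c, o, ho', rfl⟩ := hA1 y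
      have ho : o ∈ PS K := GE_mono (by omega) ho'
      rw [FG2_frob hKB hKE p ha hη hη' hα ho c, FG2_pair hKB ha hη hη' hα ho c, sum_pow_char p]
      refine Finset.sum_congr rfl fun j _ => ?_
      rw [mul_pow, hres]
      congr 1
      have h1 := congrFun hfix j
      simp only [frV, Matrix.mulVec, dotProduct, Matrix.transpose_apply] at h1
      rw [h1]
      exact Finset.sum_congr rfl fun i _ => by rw [hres]
  · set z : Fin g → K := fun i => res (mono (-(γ i : ℤ)) 1 * η) with hz
    have hfix : frV p z = (HW p γ a).transpose.mulVec z := by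
      funext j
      have h1 := FG2_frob hKB hKE p ha hη hη' (α := 0) (Submodule.zero_mem _) (o := 0)
        (Submodule.zero_mem _) (Pi.single j 1)
      have h2 : ∀ i ∈ Finset.univ, mono (-(γ i : ℤ)) ((Pi.single j 1 : Fin g → K) i) =
          if i = j then mono (-(γ j : ℤ)) 1 else 0 := by
        intro i _
        by_cases h : i = j
        · subst h; simp
        · rw [Pi.single_eq_of_ne h, mono_zero, if_neg h]
      rw [Finset.sum_congr rfl h2, Finset.sum_ite_eq' Finset.univ j, if_pos (Finset.mem_univ j),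
        zero_add, add_zero, hlog] at h1
      have h3 : ∀ i ∈ Finset.univ, (Pi.single j 1 : Fin g → K) i ^ p *
          (∑ l, HW p γ a l i * res (mono (-(γ l : ℤ)) 1 * η)) =
          if i = j then (∑ l, HW p γ a l j * z l) else 0 := by
        intro i _
        by_cases h : i = j
        · subst h; simp [hz]
        · rw [Pi.single_eq_of_ne h, zero_pow hp0, zero_mul, if_neg h]
      rw [Finset.sum_congr rfl h3, Finset.sum_ite_eq' Finset.univ j, if_pos (Finset.mem_univ j)] at h1
      simp only [frV, Matrix.mulVec, dotProduct, Matrix.transpose_apply]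
      exact h1
    have hiter : ∀ n : ℕ, (frV p)^[n] z = (MN p (HW p γ a) n).transpose.mulVec z := by
      intro n
      induction n with
      | zero =>
        show z = (1 : Matrix (Fin g) (Fin g) K).transpose.mulVec z
        rw [Matrix.transpose_one, Matrix.one_mulVec]
      | succ n ih =>
        rw [Function.iterate_succ_apply', ih]
        show _ = (HW p γ a * frM p (MN p (HW p γ a) n)).transpose.mulVec z
        rw [Matrix.transpose_mul, ← Matrix.mulVec_mulVec, ← hfix]
        funext i
        simp only [frV, Matrix.mulVec, dotProduct, Matrix.transpose_apply, frM, Matrix.map_apply]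
        rw [sum_pow_char p]
        exact Finset.sum_congr rfl fun l _ => mul_pow _ _ _
    have hz0 : z = 0 := by
      have h1 := hiter g
      rw [hMN, Matrix.transpose_zero, Matrix.zero_mulVec] at h1
      have h2 : ∀ (n : ℕ) (x : Fin g → K), (frV p)^[n] x = 0 → x = 0 := by
        intro n
        induction n with
        | zero => intro x hx; exact hx
        | succ n ih =>
          intro x hx
          rw [Function.iterate_succ_apply] at hx
          have h3 := ih _ hx
          funext i
          have h4 := congrFun h3 i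
          exact pow_eq_zero_iff hp0 |>.mp h4
      exact h2 g z h1
    have hall : ∀ x : LS K, res (x * η) = 0 := by
      intro x
      obtain ⟨α, hα, c, o, ho', rfl⟩ := hA1 x
      have ho : o ∈ PS K := GE_mono (by omega) ho'
      rw [FG2_pair hKB ha hη hη' hα ho c]
      refine Finset.sum_eq_zero fun i _ => ?_
      have : res (mono (-(γ i : ℤ)) 1 * η) = 0 := congrFun hz0 i
      rw [this, mul_zero]
    apply LS.ext
    intro n
    have h1 := hall (mono (-1 - n) 1)
    unfold res at h1
    rw [cf_mono_mul, one_mul, show (-1 : ℤ) - (-1 - n) = n by ring] at h1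
    rw [h1, cf_zero]

end

end AN
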