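import Pool.Agent.helper48.AN.SpecF

/-!
# Project an (MP_263b92_ag): module FH1

A `p`-nilpotent Hasse-Witt matrix gives `p`-rank 0.
-/

namespace AN

open scoped Classical
open Pool.Agent.helper53.AU

noncomputable section

/-- the logarithmic derivative of a function whose order at `P` is divisible by `p` is regular at `P` -/
theorem FH1_dlog {p : ℕ} [Fact p.Prime] {k F : Type} [Field k] [IsAlgClosed k] [CharP k p] [Field F]
    [Algebra k F] (hF : IsFF k F) (D : Derivation k F F) (hD : D ≠ 0) (f : F) (hf : f ≠ 0)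
    (P : Place k F) (hP : (p : ℤ) ∣ P.ord f) : P.Ge (P.ord (D P.unif)) (D f / f) := by
  obtain ⟨m, hm⟩ := hP
  have ht := P.unif_spec
  have ht0 : P.unif ≠ 0 := ht.1
  have hQ := aQK5 k F hF D hD P P.unif ht
  -- the power of the uniformiser
  have hchar : (p : F) = 0 := by
    have h1 : algebraMap k F (p : k) = 0 := by rw [CharP.cast_eq_zero, map_zero]
    rwa [map_natCast] at h1
  have hr0 : P.unif ^ m ≠ 0 := zpow_ne_zero _ ht0
  have hDr : D ((P.unif ^ m) ^ p) = 0 := by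
    rw [Derivation.leibniz_pow]
    simp [hchar]
  set r : F := (P.unif ^ m) ^ p with hr
  have hrne : r ≠ 0 := pow_ne_zero _ hr0
  have hrord : P.ord r = P.ord f := by
    rw [hr, P.ord_pow hr0, P.ord_zpow ht0, ht.2, hm]; ring
  have hv0 : f / r ≠ 0 := div_ne_zero hf hrne
  have hvord : P.ord (f / r) = 0 := by rw [P.ord_div hf hrne, hrord]; ring
  obtain ⟨c, hc⟩ := aQV1 k F hF P (f / r) (Or.inr (le_of_eq hvord.symm))
  have hDv : D (f / r - algebraMap k F c) = D (f / r) := by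
    rw [map_sub, Derivation.map_algebraMap, sub_zero]
  have h1 : P.Ge (P.ord (D P.unif)) (D (f / r)) := by
    have := hQ.2.2.1 1 _ hc
    rw [hDv] at this
    exact this.mono (by omega)
  have h2 : D f = r * D (f / r) := by
    have : f = r * (f / r) := by field_simp
    conv_lhs => rw [this]
    rw [Derivation.leibniz, hDr]
    simp
  have h3 : D f / f = D (f / r) * (f / r)⁻¹ := by
    rw [h2]
    field_simp
  rw [h3]
  have h4 : P.Ge 0 (f / r)⁻¹ := Or.inr (by rw [P.ord_inv hv0, hvord]; simp)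
  simpa using h1.mul h4

theorem FH1 (hFB : FB_stmt) (hFD : FD_stmt) (hCB : CB_stmt) (hCC : CC_stmt) (hFG2 : FG2_stmt)
    (hFH0 : FH0_stmt) : FH1_stmt := by
  intro p _ k F _ _ _ _ _ hF P₀ ι hι g γ a ha hA hMN f hf hdiv
  obtain ⟨D, hD⟩ := QK1 k F hF
  refine hFH0 p k F hF D hD f ?_
  obtain ⟨u, hu1, hu2, hu3⟩ := hFB k F hF P₀ ι hι D hD
  set w : F := D f / f with hw
  have hreg : ∀ P : Place k F, P.Ge (P.ord (D P.unif)) w := fun P =>
    FH1_dlog hF D hD f hf P (hdiv P)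
  set η : LS k := u * ι w with hη
  -- `η` is in `Ω`
  have hΩ : ∀ x ∈ Submodule.span k {x : F | ∃ f ∈ Reg P₀, ∃ h ∈ Reg P₀, x = f * D h},
      u * ι x ∈ OmA γ a := by
    intro x hx
    induction hx using Submodule.span_induction with
    | mem x hx =>
      obtain ⟨f₁, hf₁, h₁, hh₁, rfl⟩ := hx
      have : u * ι (f₁ * D h₁) = ι f₁ * dd (ι h₁) := by
        rw [map_mul, hu3]; ring
      rw [this]
      exact Submodule.subset_span ⟨_, (hA _).mpr ⟨f₁, hf₁, rfl⟩, _, (hA _).mpr ⟨h₁, hh₁, rfl⟩, rfl⟩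
    | zero => rw [map_zero, mul_zero]; exact Submodule.zero_mem _
    | add x y _ _ hx hy => rw [map_add, mul_add]; exact Submodule.add_mem _ hx hy
    | smul c x _ hx =>
      have : u * ι (c • x) = c • (u * ι x) := by
        rw [Algebra.smul_def, map_mul, hι.const, ← C_mul]; ring
      rw [this]
      exact Submodule.smul_mem _ _ hx
  have hηΩ : η ∈ OmA γ a := hΩ w ((hFD k F hF P₀ D hD w).mp fun P _ => hreg P)
  -- `η` is regular
  have hηPS : η ∈ PS k := by
    by_cases hw0 : w = 0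
    · rw [hη, hw0, map_zero, mul_zero]; exact Submodule.zero_mem _
    · have h1 : ι w ∈ GE k (P₀.ord (D P₀.unif)) := GE_mono ((hreg P₀).le hw0) (hι.mem w hw0)
      have h2 := GE_mul hu1 h1
      exact GE_mono (by omega) h2
  -- the logarithmic derivative
  have hφ0 : ι f ≠ 0 := (map_ne_zero ι).mpr hf
  have hηφ : η = dd (ι f) * (ι f)⁻¹ := by
    rw [hη, hw, map_div₀, hu3]
    rw [div_eq_mul_inv]; ring
  -- Cartier
  have hp : p ≠ 0 := (Fact.out : p.Prime).ne_zero
  have hcart : ∃ y' : LS k, η = η ^ p * mono ((p : ℤ) - 1) 1 + dd y' := by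
    obtain ⟨y, hy⟩ := hCB p k (ι f)
    refine ⟨((ι f)⁻¹) ^ p * y, ?_⟩
    have h1 : dd (((ι f)⁻¹) ^ p * y) = ((ι f)⁻¹) ^ p * dd y := by
      rw [dd_mul, dd_pow_char p ((ι f)⁻¹) p (dvd_refl p)]; ring
    rw [h1]
    have h2 : η = ((ι f)⁻¹) ^ p * ((ι f) ^ (p - 1) * dd (ι f)) := by
      rw [hηφ]
      obtain ⟨q, rfl⟩ : ∃ q, p = q + 1 := ⟨p - 1, by omega⟩
      rw [Nat.add_sub_cancel, pow_succ]
      have h3 : (ι f)⁻¹ ^ q * ι f ^ q = 1 := by
        rw [← mul_pow, inv_mul_cancel₀ hφ0, one_pow]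
      calc dd (ι f) * (ι f)⁻¹ = dd (ι f) * (ι f)⁻¹ * 1 := by ring
        _ = dd (ι f) * (ι f)⁻¹ * ((ι f)⁻¹ ^ q * ι f ^ q) := by rw [h3]
        _ = _ := by ring
    conv_lhs => rw [h2, hy]
    rw [hηφ, mul_pow]
    ring
  obtain ⟨y', hy'⟩ := hcart
  have hη0 : η = 0 := (hFG2 p k g γ a ha).2 η hηΩ hηPS (fun y => hCC p k y η η y' hy') hMN
  have hu0 : u ≠ 0 := by
    intro h
    apply hu2
    rw [h, cf_zero]
  have hιw : ι w = 0 := by
    rcases mul_eq_zero.mp (hη ▸ hη0) with h | h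
    · exact absurd h hu0
    · exact h
  have hw0 : w = 0 := (map_eq_zero ι).mp hιw
  rw [hw] at hw0
  rcases div_eq_zero_iff.mp hw0 with h | h
  · exact h
  · exact absurd h hf

end

end AN
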